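import Pool.Agent.Y798.JL.Crit

/-!
# The Sato-Tate law and the single point `s = 1`

`K` is a number field, `G` an arbitrary compact Hausdorff group (connected or not) and `x_v ∈ G` for the primes
`v` of `K`: for an abelian variety `A` over `K` the group `G` is the Sato-Tate group `ST(A)` and `x_v` is a
representative of the normalised Frobenius class (the values at the finitely many other primes do not matter,
neither for the averages nor for the zeros and poles of the Euler products).

The usual criterion asks that all `L(π, s)` for the non-trivial irreducible representations `π` of `G` have no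
zeros and no poles on the whole line `Re s = 1`.  Here the `L`-functions of the representations of degree
greater than one are only supposed to have local meromorphic continuations near the points of that line, with
zeros and poles of any orders, and for the characters of degree one (Hecke characters in the case
of abelian varieties) the classical result is assumed.  Under these hypotheses the Sato-Tate law is
equivalent to the vanishing of the order of `L(π, s)` at the single point `s = 1`, for all `π` of degree
greater than one, and to the law in the sense of Dirichlet density, and even to a condition in which no order is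
prescribed: the mean of `|χ_π|²` is one (orthonormality in the sense of Selberg) and the mean of `|χ_π|⁴` is
not one.
-/

set_option autoImplicit false

namespace Pool.Agent.Results.MP_c481b3_nt.EdgePointCriterion

open NumberField IsDedekindDomain Filter Topology MeasureTheory

section

variable {K : Type} [Field K] [NumberField K]

/-- The average of `φ` over the primes of `K` of norm at most `N`. -/
noncomputable def avg (φ : HeightOneSpectrum (𝓞 K) → ℂ) (N : ℕ) : ℂ :=
  (∑ᶠ w : {w : HeightOneSpectrum (𝓞 K) // Ideal.absNorm w.asIdeal ≤ N}, φ w.1) /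
    (Nat.card {w : HeightOneSpectrum (𝓞 K) // Ideal.absNorm w.asIdeal ≤ N} : ℂ)

/-- The Dirichlet average `∑ φ(v) q_v^{-1-ε} / ∑ q_v^{-1-ε}` over the primes of `K`. -/
noncomputable def dirichletAvg (φ : HeightOneSpectrum (𝓞 K) → ℝ) (ε : ℝ) : ℝ :=
  (∑' v, φ v * (Ideal.absNorm v.asIdeal : ℝ) ^ (-(1 + ε))) /
    ∑' v : HeightOneSpectrum (𝓞 K), (Ideal.absNorm v.asIdeal : ℝ) ^ (-(1 + ε))

variable {G : Type} [Group G]

/-- The character of a unitary representation. -/
noncomputable def character {n : ℕ} (π : G →* Matrix.unitaryGroup (Fin n) ℂ) (g : G) : ℂ :=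
  (π g : Matrix (Fin n) (Fin n) ℂ).trace

/-- An irreducible unitary representation: it is not zero, and only the scalars commute with it. -/
def IsIrred {n : ℕ} (π : G →* Matrix.unitaryGroup (Fin n) ℂ) : Prop :=
  n ≠ 0 ∧ ∀ A : Matrix (Fin n) (Fin n) ℂ, (∀ g, (π g : Matrix (Fin n) (Fin n) ℂ) * A = A * π g) →
    ∃ c : ℂ, A = c • (1 : Matrix (Fin n) (Fin n) ℂ)

/-- The Euler product `L(π, s) = ∏_v det(1 - π(x_v) q_v^{-s})⁻¹`. -/
noncomputable def LFunction {n : ℕ} (π : G →* Matrix.unitaryGroup (Fin n) ℂ)
    (x : HeightOneSpectrum (𝓞 K) → G) (s : ℂ) : ℂ :=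
  ∏' v, (Matrix.det (1 - (Ideal.absNorm v.asIdeal : ℂ) ^ (-s) •
    (π (x v) : Matrix (Fin n) (Fin n) ℂ)))⁻¹

variable [TopologicalSpace G]

/-- The continuation hypothesis: if `π` is an irreducible representation of `G` of degree greater than one, then
`L(π, s)` has a meromorphic continuation to a neighbourhood of every point `1 + iτ`. -/
def HasContinuations (x : HeightOneSpectrum (𝓞 K) → G) : Prop :=
  ∀ (n : ℕ) (π : G →* Matrix.unitaryGroup (Fin n) ℂ), Continuous π → IsIrred π → 1 < n →
    ∀ τ : ℝ, ∃ Λ : ℂ → ℂ, MeromorphicAt Λ (1 + τ * Complex.I) ∧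
      ∀ᶠ s in 𝓝 ((1 : ℂ) + τ * Complex.I), (1 : ℝ) < s.re → Λ s = LFunction π x s

/-- The hypothesis on characters of degree one: if `θ` is a non-trivial character of degree one of `G`, then
the averages of `θ(x_v)` tend to `0`. -/
def CharactersAverageZero (x : HeightOneSpectrum (𝓞 K) → G) : Prop :=
  ∀ θ : G →* Matrix.unitaryGroup (Fin 1) ℂ, Continuous θ → (∃ g, θ g ≠ 1) →
    Tendsto (avg fun v => character θ (x v)) atTop (𝓝 0)

/-- The Sato-Tate law: the classes of the `x_v` are equidistributed for `μ`, in the sense of natural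
density. -/
def Equidistributed [MeasurableSpace G] (x : HeightOneSpectrum (𝓞 K) → G) (μ : Measure G) :
    Prop :=
  ∀ f : G → ℂ, Continuous f → (∀ g h, f (h * g * h⁻¹) = f g) →
    Tendsto (avg fun v => f (x v)) atTop (𝓝 (∫ g, f g ∂μ))

/-- The Sato-Tate law in the sense of Dirichlet density. -/
def DirichletEquidistributed [MeasurableSpace G] (x : HeightOneSpectrum (𝓞 K) → G)
    (μ : Measure G) : Prop :=
  ∀ f : G → ℝ, Continuous f → (∀ g h, f (h * g * h⁻¹) = f g) →
    Tendsto (dirichletAvg fun v => f (x v)) (𝓝[>] 0) (𝓝 (∫ g, f g ∂μ))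

/-- For every irreducible representation `π` of `G` of degree greater than one `L(π, s)` has neither a zero nor a
pole at the point `s = 1`: its meromorphic continuation has order zero there. -/
def OrderZeroAtOne (x : HeightOneSpectrum (𝓞 K) → G) : Prop :=
  ∀ (n : ℕ) (π : G →* Matrix.unitaryGroup (Fin n) ℂ), Continuous π → IsIrred π → 1 < n →
    ∃ Λ : ℂ → ℂ, MeromorphicAt Λ 1 ∧
      (∀ᶠ s in 𝓝 (1 : ℂ), (1 : ℝ) < s.re → Λ s = LFunction π x s) ∧
      meromorphicOrderAt Λ 1 = 0

/-- For every irreducible representation `π` of `G` of degree greater than one the Dirichlet average of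
`|χ_π(x_v)|²` tends to `1`, and that of `|χ_π(x_v)|⁴` does not. -/
def SecondAndFourthMoments (x : HeightOneSpectrum (𝓞 K) → G) : Prop :=
  ∀ (n : ℕ) (π : G →* Matrix.unitaryGroup (Fin n) ℂ), Continuous π → IsIrred π → 1 < n →
    Tendsto (dirichletAvg fun v => ‖character π (x v)‖ ^ 2) (𝓝[>] 0) (𝓝 1) ∧
    ¬ Tendsto (dirichletAvg fun v => ‖character π (x v)‖ ^ 4) (𝓝[>] 0) (𝓝 1)

end

section Bridge

set_option linter.unusedSectionVars false

open Pool.Agent.TH553.ST Pool.Agent.TH553.RS Pool.Agent.W540.BE Pool.Agent.Y798.JL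

variable {K : Type} [Field K] [NumberField K]

theorem avg_eq (g : HeightOneSpectrum (𝓞 K) → ℂ) : avg g = mn g := by
  funext N
  have hs : ∀ v, v ∈ upto K N ↔ Ideal.absNorm v.asIdeal ≤ N := fun v => mem_upto
  let e : {v : HeightOneSpectrum (𝓞 K) // Ideal.absNorm v.asIdeal ≤ N} ≃ (upto K N) :=
    Equiv.subtypeEquivRight fun v => (hs v).symm
  have hfin : Finite {v : HeightOneSpectrum (𝓞 K) // Ideal.absNorm v.asIdeal ≤ N} :=
    Finite.of_equiv _ e.symm
  unfold avg mn
  have h1 : (∑ᶠ v : {v : HeightOneSpectrum (𝓞 K) // Ideal.absNorm v.asIdeal ≤ N}, g v.1) =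
      ∑ v ∈ upto K N, g v := by
    rw [← Finset.sum_coe_sort, ← finsum_eq_sum_of_fintype, ← finsum_comp_equiv e]
    rfl
  have h2 : Nat.card {v : HeightOneSpectrum (𝓞 K) // Ideal.absNorm v.asIdeal ≤ N} =
      (upto K N).card := by
    rw [Nat.card_congr e, Nat.card_eq_fintype_card, Fintype.card_coe]
  rw [h1, h2, Complex.real_smul, div_eq_inv_mul]
  push_cast
  rfl

/-- the two normalisations of Dirichlet averages -/
theorem dir_iff (φ : HeightOneSpectrum (𝓞 K) → ℝ) (c : ℝ) :
    Tendsto (dirichletAvg φ) (𝓝[>] 0) (𝓝 c) ↔ DM φ c := by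
  have h0 : ∀ᶠ ε : ℝ in 𝓝[>] 0, dirichletAvg φ ε = qt (nm K) φ ε / qt (nm K) (fun _ => 1) ε := by
    filter_upwards [Pool.Agent.H341R2.lam_tendsto.eventually_gt_atTop 0] with ε hε
    unfold qt dirichletAvg EP
    rw [div_div_div_cancel_right₀ hε.ne']
    congr 1
    refine tsum_congr fun v => ?_
    rw [one_mul]
    rfl
  have h1 : Tendsto (qt (nm K) fun _ => (1 : ℝ)) (𝓝[>] 0) (𝓝 1) := (sysF K).one
  constructor
  · intro h
    have h2 := h.mul h1
    rw [mul_one] at h2
    refine h2.congr' ?_
    filter_upwards [h0, h1.eventually_ne one_ne_zero] with ε h3 h4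
    rw [h3, div_mul_cancel₀ _ h4]
  · intro h
    have h2 := h.div h1 one_ne_zero
    rw [div_one] at h2
    refine h2.congr' ?_
    filter_upwards [h0] with ε h3
    rw [h3]
    rfl

end Bridge

open Pool.Agent.TH553.ST Pool.Agent.TH553.RS Pool.Agent.W540.BE Pool.Agent.Y798.JL in
/-- **The Sato-Tate law and the point `s = 1`.**  Let `K` be a number field, `G` a compact Hausdorff
group, `μ` its Haar probability measure and `x_v ∈ G` for the primes `v` of `K`.  Suppose that

* for the non-trivial characters `θ` of degree one of `G` the averages of `θ(x_v)` tend to `0`;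
* for the irreducible representations `π` of `G` of degree greater than one the function
  `L(π, s) = ∏_v det(1 - π(x_v) q_v^{-s})⁻¹` has meromorphic continuations to neighbourhoods of the points
  `1 + iτ`, with zeros and poles of any orders.

Then the following are equivalent:

1. the classes of the `x_v` are equidistributed for `μ`, in the sense of natural density;
2. they are equidistributed for `μ`, in the sense of Dirichlet density;
3. for every irreducible representation `π` of `G` of degree greater than one the order of `L(π, s)` at the point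
   `s = 1` is zero;
4. for every irreducible representation `π` of `G` of degree greater than one the Dirichlet average of
   `|χ_π(x_v)|²` tends to `1`, and that of `|χ_π(x_v)|⁴` does not. -/
theorem result (K : Type) [Field K] [NumberField K] (G : Type) [Group G] [TopologicalSpace G]
    [IsTopologicalGroup G] [CompactSpace G] [T2Space G] [MeasurableSpace G] [BorelSpace G]
    (μ : Measure G) [IsProbabilityMeasure μ] [μ.IsHaarMeasure]
    (x : HeightOneSpectrum (𝓞 K) → G)
    (hchar : CharactersAverageZero x) (hcont : HasContinuations x) :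
    [Equidistributed x μ, DirichletEquidistributed x μ, OrderZeroAtOne x,
      SecondAndFourthMoments x].TFAE := by
  have H : HC x :=
    { cn := fun n π hc hs hn τ => hcont n π hc ⟨by omega, hs⟩ hn τ
      ch := fun θ hc hnt => by
        rw [← avg_eq]
        exact hchar θ hc hnt }
  tfae_have 1 → 2 := by
    intro h f hf hcl
    rw [dir_iff]
    refine dlaw_of_law (x := x) (μ := μ) ?_ f hf hcl
    intro f hf hcl
    have h1 := h (fun g => ((f g : ℝ) : ℂ)) (Complex.continuous_ofReal.comp hf)
      (fun g k => by rw [hcl])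
    rw [avg_eq] at h1
    have h2 := (Complex.continuous_re.tendsto _).comp h1
    have h3 : (∫ g, ((f g : ℝ) : ℂ) ∂μ).re = ∫ g, f g ∂μ := by
      have h5 : ∫ g, ((f g : ℝ) : ℂ) ∂μ = ((∫ g, f g ∂μ : ℝ) : ℂ) := integral_ofReal
      rw [h5, Complex.ofReal_re]
    rw [h3] at h2
    refine h2.congr fun N => ?_
    simp only [Function.comp]
    rw [re_mn]
    congr 1
  tfae_have 2 → 3 := by
    intro h n π hc hs hn
    exact H.oz (μ := μ) (fun f hf hcl => (dir_iff _ _).1 (h f hf hcl)) n π hc hs.2 hn
  tfae_have 3 → 4 := by
    intro h n π hc hs hn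
    have h1 := H.m24 (fun n π hc hs hn => h n π hc ⟨by omega, hs⟩ hn) n π hc hs.2 hn
    exact ⟨(dir_iff _ _).2 h1.1, fun h2 => h1.2 ((dir_iff _ _).1 h2)⟩
  tfae_have 4 → 1 := by
    intro h f hf hcl
    rw [avg_eq]
    refine law_c (H.law (μ := μ) ?_) hf hcl
    intro n π hc hs hn
    have h1 := h n π hc ⟨by omega, hs⟩ hn
    exact ⟨(dir_iff _ _).1 h1.1, fun h2 => h1.2 ((dir_iff _ _).2 h2)⟩
  tfae_finish

end Pool.Agent.Results.MP_c481b3_nt.EdgePointCriterion
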