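import Pool.Agent.Y798.JL.Main

/-!
# A criterion for the joint Sato-Tate law of several families

`K` is a number field and `x_{i,v}`, `i` in a finite set, are elements of compact connected groups `G_i` for
the primes `v` of `K`: the Sato-Tate groups and the normalised Frobenius classes of several families as in
the problem, with connected Sato-Tate groups.  The Sato-Tate group of the sum of the families is a
subgroup of the product of the `G_i`, and the question is whether it is the whole product and the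
equidistribution holds there.

The `L`-functions of the tensor products (with twists by Artin representations) have local meromorphic
continuations near the points of the line `Re s = 1`, with zeros and poles of any orders; only for the
characters of degree one (Hecke characters) the classical result is assumed.  The theorem says that
the joint Sato-Tate law, in the sense of natural density, over all finite extensions of `K`, and jointly
with the Frobenius elements of all finite Galois extensions of `K`, is equivalent to three conditions on one or two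
characters in the sense of Dirichlet density: the mean of the square of the absolute value of each
irreducible character is one (the Rankin-Selberg condition), no irreducible character of degree greater than one
has only finitely many absolute values in the mean, and there is no coincidence between the absolute values
of two irreducible characters of two of the families.  So the joint law of any number of families
follows from that of the pairs.
-/

set_option autoImplicit false

namespace Pool.Agent.Results.MP_4c4ce6_nt.JointLawCriterion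

open NumberField IsDedekindDomain Filter Topology MeasureTheory

section

variable {F : Type} [Field F] [NumberField F]

/-- The average of `φ` over the primes of `F` of norm at most `N`. -/
noncomputable def avg (φ : HeightOneSpectrum (𝓞 F) → ℂ) (N : ℕ) : ℂ :=
  (∑ᶠ w : {w : HeightOneSpectrum (𝓞 F) // Ideal.absNorm w.asIdeal ≤ N}, φ w.1) /
    (Nat.card {w : HeightOneSpectrum (𝓞 F) // Ideal.absNorm w.asIdeal ≤ N} : ℂ)

/-- The Dirichlet average `∑ φ(v) q_v^{-1-ε} / ∑ q_v^{-1-ε}` over the primes of `F`. -/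
noncomputable def dirichletAvg (φ : HeightOneSpectrum (𝓞 F) → ℝ) (ε : ℝ) : ℝ :=
  (∑' v, φ v * (Ideal.absNorm v.asIdeal : ℝ) ^ (-(1 + ε))) /
    ∑' v : HeightOneSpectrum (𝓞 F), (Ideal.absNorm v.asIdeal : ℝ) ^ (-(1 + ε))

/-- The classes of the `y w` are equidistributed for `μ`, in the sense of natural density. -/
def Equidistributed {G : Type} [Group G] [TopologicalSpace G] [MeasurableSpace G]
    (y : HeightOneSpectrum (𝓞 F) → G) (μ : Measure G) : Prop :=
  ∀ f : G → ℂ, Continuous f → (∀ g h, f (h * g * h⁻¹) = f g) →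
    Tendsto (avg fun w => f (y w)) atTop (𝓝 (∫ g, f g ∂μ))

/-- `y w` is a conjugate of `x v` for all but finitely many primes `w` of `F` of residue degree one over
the prime `v` of `K` below `w`. -/
def BaseChange {K : Type} [Field K] [NumberField K] [Algebra K F] {G : Type} [Group G]
    (x : HeightOneSpectrum (𝓞 K) → G) (y : HeightOneSpectrum (𝓞 F) → G) : Prop :=
  ∃ S : Finset (HeightOneSpectrum (𝓞 F)), ∀ w, w ∉ S → ∀ v : HeightOneSpectrum (𝓞 K),
    w.asIdeal.comap (algebraMap (𝓞 K) (𝓞 F)) = v.asIdeal →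
    Ideal.absNorm w.asIdeal = Ideal.absNorm v.asIdeal → ∃ h : G, y w = h * x v * h⁻¹

/-- `σ` is a Frobenius element at the prime `v` of `F`. -/
def IsFrobenius (v : HeightOneSpectrum (𝓞 F)) (σ : Gal(AlgebraicClosure F/F)) : Prop :=
  ∃ Q : Ideal (𝓞 (AlgebraicClosure F)), Q.IsMaximal ∧
    Q.comap (algebraMap (𝓞 F) (𝓞 (AlgebraicClosure F))) = v.asIdeal ∧
    ∀ z : 𝓞 (AlgebraicClosure F), σ • z - z ^ Ideal.absNorm v.asIdeal ∈ Q

end

section

variable {G : Type} [Group G]

/-- The character of a unitary representation. -/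
noncomputable def character {n : ℕ} (π : G →* Matrix.unitaryGroup (Fin n) ℂ) (g : G) : ℂ :=
  (π g : Matrix (Fin n) (Fin n) ℂ).trace

/-- An irreducible unitary representation: it is not zero, and only the scalars commute with it. -/
def IsIrred {n : ℕ} (π : G →* Matrix.unitaryGroup (Fin n) ℂ) : Prop :=
  n ≠ 0 ∧ ∀ A : Matrix (Fin n) (Fin n) ℂ, (∀ g, (π g : Matrix (Fin n) (Fin n) ℂ) * A = A * π g) →
    ∃ c : ℂ, A = c • (1 : Matrix (Fin n) (Fin n) ℂ)

/-- A representation of a Galois group is an Artin representation if it is trivial on an open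
subgroup. -/
def IsArtin [TopologicalSpace G] {m : ℕ} (ψ : G →* Matrix.unitaryGroup (Fin m) ℂ) : Prop :=
  ∃ U : Subgroup G, IsOpen (U : Set G) ∧ ∀ u ∈ U, ψ u = 1

end

section

variable {K : Type} [Field K] [NumberField K] {ι : Type} [Fintype ι] {G : ι → Type}
  [∀ i, Group (G i)]

/-- The Kronecker product of the matrices `A i`, `i ∈ ι`, and `B`. -/
def kron {n : ι → ℕ} {m : ℕ} (A : ∀ i, Matrix (Fin (n i)) (Fin (n i)) ℂ)
    (B : Matrix (Fin m) (Fin m) ℂ) :
    Matrix ((∀ i, Fin (n i)) × Fin m) ((∀ i, Fin (n i)) × Fin m) ℂ :=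
  Matrix.of fun a b => (∏ i, A i (a.1 i) (b.1 i)) * B a.2 b.2

/-- The Euler product `L(⨂ π_i ⊗ ψ, s) = ∏_v det(1 - q_v^{-s} (⨂ π_i(x_{i,v}) ⊗ ψ(σ_v)))⁻¹`. -/
noncomputable def LTensor [DecidableEq ι] {n : ι → ℕ} {m : ℕ}
    (π : ∀ i, G i →* Matrix.unitaryGroup (Fin (n i)) ℂ)
    (x : ∀ i, HeightOneSpectrum (𝓞 K) → G i)
    (ψ : Gal(AlgebraicClosure K/K) →* Matrix.unitaryGroup (Fin m) ℂ)
    (σ : HeightOneSpectrum (𝓞 K) → Gal(AlgebraicClosure K/K)) (s : ℂ) : ℂ :=
  ∏' v, (Matrix.det (1 - (Ideal.absNorm v.asIdeal : ℂ) ^ (-s) •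
    kron (fun i => (π i (x i v) : Matrix (Fin (n i)) (Fin (n i)) ℂ))
      (ψ (σ v) : Matrix (Fin m) (Fin m) ℂ)))⁻¹

variable [∀ i, TopologicalSpace (G i)]

/-- The continuation hypothesis: if the `π_i` are irreducible representations of the `G_i`, not all of
degree one, and `ψ` is an irreducible Artin representation of `K`, then `L(⨂ π_i ⊗ ψ, s)` has a meromorphic
continuation to a neighbourhood of every point `1 + iτ`. -/
def HasContinuations [DecidableEq ι] (x : ∀ i, HeightOneSpectrum (𝓞 K) → G i)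
    (σ : HeightOneSpectrum (𝓞 K) → Gal(AlgebraicClosure K/K)) : Prop :=
  ∀ (n : ι → ℕ) (π : ∀ i, G i →* Matrix.unitaryGroup (Fin (n i)) ℂ) (m : ℕ)
    (ψ : Gal(AlgebraicClosure K/K) →* Matrix.unitaryGroup (Fin m) ℂ),
    (∀ i, Continuous (π i) ∧ IsIrred (π i)) → (∃ i, 1 < n i) → IsIrred ψ → IsArtin ψ →
    ∀ τ : ℝ, ∃ Λ : ℂ → ℂ, MeromorphicAt Λ (1 + τ * Complex.I) ∧
      ∀ᶠ s in 𝓝 ((1 : ℂ) + τ * Complex.I), (1 : ℝ) < s.re → Λ s = LTensor π x ψ σ s

/-- The hypothesis on characters of degree one: if the `θ_i` are characters of degree one of the `G_i`, not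
all trivial, and `ψ` is an irreducible Artin representation of `K`, then the averages of
`∏ θ_i(x_{i,v}) · χ_ψ(σ_v)` tend to `0`. -/
def CharactersAverageZero (x : ∀ i, HeightOneSpectrum (𝓞 K) → G i)
    (σ : HeightOneSpectrum (𝓞 K) → Gal(AlgebraicClosure K/K)) : Prop :=
  ∀ (θ : ∀ i, G i →* Matrix.unitaryGroup (Fin 1) ℂ) (m : ℕ)
    (ψ : Gal(AlgebraicClosure K/K) →* Matrix.unitaryGroup (Fin m) ℂ),
    (∀ i, Continuous (θ i)) → (∃ i g, θ i g ≠ 1) → IsIrred ψ → IsArtin ψ →
    Tendsto (avg fun v => (∏ i, character (θ i) (x i v)) * character ψ (σ v)) atTop (𝓝 0)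

/-- For every irreducible representation `π` of degree greater than one of one of the `G_i` the Dirichlet average of
`|χ_π(x_{i,v})|²` tends to `1`. -/
def RankinSelberg (x : ∀ i, HeightOneSpectrum (𝓞 K) → G i) : Prop :=
  ∀ (i : ι) (n : ℕ) (π : G i →* Matrix.unitaryGroup (Fin n) ℂ), Continuous π → IsIrred π →
    1 < n → Tendsto (dirichletAvg fun v => ‖character π (x i v)‖ ^ 2) (𝓝[>] 0) (𝓝 1)

/-- For every irreducible representation `π` of degree greater than one of one of the `G_i` and every finite set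
`A` of real numbers the Dirichlet average of `∏_{a ∈ A} | |χ_π(x_{i,v})| - a |` does not tend to `0`. -/
def NotFiniteValued (x : ∀ i, HeightOneSpectrum (𝓞 K) → G i) : Prop :=
  ∀ (i : ι) (n : ℕ) (π : G i →* Matrix.unitaryGroup (Fin n) ℂ), Continuous π → IsIrred π →
    1 < n → ∀ A : Finset ℝ,
    ¬ Tendsto (dirichletAvg fun v => ∏ a ∈ A, |‖character π (x i v)‖ - a|) (𝓝[>] 0) (𝓝 0)

/-- For two different families `i`, `j` and irreducible representations `π` of `G_i` and `π'` of `G_j` of degrees
greater than one the Dirichlet average of `| |χ_π(x_{i,v})| - |χ_π'(x_{j,v})| |` does not tend to `0`. -/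
def NoCoincidence (x : ∀ i, HeightOneSpectrum (𝓞 K) → G i) : Prop :=
  ∀ i j, i ≠ j → ∀ (a : ℕ) (π : G i →* Matrix.unitaryGroup (Fin a) ℂ) (b : ℕ)
    (π' : G j →* Matrix.unitaryGroup (Fin b) ℂ), Continuous π → IsIrred π → 1 < a →
    Continuous π' → IsIrred π' → 1 < b →
    ¬ Tendsto (dirichletAvg fun v => |‖character π (x i v)‖ - ‖character π' (x j v)‖|)
      (𝓝[>] 0) (𝓝 0)

end

section Bridge

set_option linter.unusedSectionVars false

open Pool.Agent.TH553.ST Pool.Agent.TH553.RS Pool.Agent.W540.BE Pool.Agent.Y798.JL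

variable {K : Type} [Field K] [NumberField K]

theorem avg_eq (g : HeightOneSpectrum (𝓞 K) → ℂ) : avg g = mn g := by
  funext N
  have hs : ∀ v, v ∈ upto K N ↔ Ideal.absNorm v.asIdeal ≤ N := fun v => mem_upto
  let e : {v : HeightOneSpectrum (𝓞 K) // Ideal.absNorm v.asIdeal ≤ N} ≃ (upto K N) :=
    Equiv.subtypeEquivRight fun v => (hs v).symm
  have hfin : Finite {v : HeightOneSpectrum (𝓞 K) // Ideal.absNorm v.asIdeal ≤ N} :=
    Finite.of_equiv _ e.symm
  unfold avg mn
  have h1 : (∑ᶠ v : {v : HeightOneSpectrum (𝓞 K) // Ideal.absNorm v.asIdeal ≤ N}, g v.1) =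
      ∑ v ∈ upto K N, g v := by
    rw [← Finset.sum_coe_sort, ← finsum_eq_sum_of_fintype, ← finsum_comp_equiv e]
    rfl
  have h2 : Nat.card {v : HeightOneSpectrum (𝓞 K) // Ideal.absNorm v.asIdeal ≤ N} =
      (upto K N).card := by
    rw [Nat.card_congr e, Nat.card_eq_fintype_card, Fintype.card_coe]
  rw [h1, h2, Complex.real_smul, div_eq_inv_mul]
  push_cast
  rfl

/-- the two normalisations of Dirichlet averages -/
theorem dir_iff (φ : HeightOneSpectrum (𝓞 K) → ℝ) (c : ℝ) :
    Tendsto (dirichletAvg φ) (𝓝[>] 0) (𝓝 c) ↔ DM φ c := by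
  have h0 : ∀ᶠ ε : ℝ in 𝓝[>] 0, dirichletAvg φ ε = qt (nm K) φ ε / qt (nm K) (fun _ => 1) ε := by
    filter_upwards [Pool.Agent.H341R2.lam_tendsto.eventually_gt_atTop 0] with ε hε
    unfold qt dirichletAvg EP
    rw [div_div_div_cancel_right₀ hε.ne']
    congr 1
    refine tsum_congr fun v => ?_
    rw [one_mul]
    rfl
  have h1 : Tendsto (qt (nm K) fun _ => (1 : ℝ)) (𝓝[>] 0) (𝓝 1) := (sysF K).one
  constructor
  · intro h
    have h2 := h.mul h1
    rw [mul_one] at h2
    refine h2.congr' ?_
    filter_upwards [h0, h1.eventually_ne one_ne_zero] with ε h3 h4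
    rw [h3, div_mul_cancel₀ _ h4]
  · intro h
    have h2 := h.div h1 one_ne_zero
    rw [div_one] at h2
    refine h2.congr' ?_
    filter_upwards [h0] with ε h3
    rw [h3]
    rfl

variable {ι : Type} [Fintype ι] [DecidableEq ι] {G : ι → Type} [∀ i, Group (G i)]
  [∀ i, TopologicalSpace (G i)] [∀ i, IsTopologicalGroup (G i)] [∀ i, CompactSpace (G i)]
  [∀ i, MeasurableSpace (G i)] [∀ i, BorelSpace (G i)] {μ : ∀ i, Measure (G i)}
  [∀ i, IsProbabilityMeasure (μ i)] [∀ i, (μ i).IsHaarMeasure]
  {x : ∀ i, HeightOneSpectrum (𝓞 K) → G i}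

/-- differences of absolute values and of their squares -/
theorem dm_sq_iff {a b : HeightOneSpectrum (𝓞 K) → ℝ} {C : ℝ} (ha : ∀ v, 0 ≤ a v ∧ a v ≤ C)
    (hb : ∀ v, 0 ≤ b v ∧ b v ≤ C) :
    DM (fun v => |a v ^ 2 - b v ^ 2|) 0 ↔ DM (fun v => |a v - b v|) 0 := by
  have hN := sysF K
  have hab : Bd a := ⟨C, fun v => by rw [abs_of_nonneg (ha v).1]; exact (ha v).2⟩
  have hbb : Bd b := ⟨C, fun v => by rw [abs_of_nonneg (hb v).1]; exact (hb v).2⟩
  have h1 : Bd fun v => |a v - b v| := (hab.sub hbb).abs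
  have h2 : Bd fun v => |a v ^ 2 - b v ^ 2| := (hab.sq.sub hbb.sq).abs
  have hC : ∀ v, |a v ^ 2 - b v ^ 2| ≤ (2 * C) * |a v - b v| := by
    intro v
    have e : a v ^ 2 - b v ^ 2 = (a v + b v) * (a v - b v) := by ring
    rw [e, abs_mul]
    refine mul_le_mul_of_nonneg_right ?_ (abs_nonneg _)
    rw [abs_of_nonneg (by linarith [(ha v).1, (hb v).1])]
    linarith [(ha v).2, (hb v).2]
  have hC' : ∀ v, |a v - b v| ^ 2 ≤ |a v ^ 2 - b v ^ 2| := by
    intro v
    have e : a v ^ 2 - b v ^ 2 = (a v + b v) * (a v - b v) := by ring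
    rw [e, abs_mul, sq]
    refine mul_le_mul_of_nonneg_right ?_ (abs_nonneg _)
    rw [abs_of_nonneg (by linarith [(ha v).1, (hb v).1] : 0 ≤ a v + b v), abs_le]
    constructor <;> linarith [(ha v).1, (hb v).1]
  constructor
  · intro h
    refine tendsto_of_ultra fun U hU => ?_
    have h3 := M_zero_of_le hN hU h1.sq h2 (fun v => sq_nonneg _) hC' (M_of_tendsto hU h)
    have h4 := M_zero_of_sq hN hU h1 h3
    have h5 := M_lim hN hU h1
    rwa [h4] at h5
  · intro h
    refine tendsto_of_ultra fun U hU => ?_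
    have h3 : (M (nm K) U fun v => (2 * C) * |a v - b v|) = 0 := by
      rw [M_const_mul hN hU h1, M_of_tendsto hU h, mul_zero]
    have h4 := M_zero_of_le hN hU h2 (h1.const_mul _) (fun v => abs_nonneg _) hC h3
    have h5 := M_lim hN hU h2
    rwa [h4] at h5

theorem ok_iff : (RankinSelberg x ∧ NotFiniteValued x ∧ NoCoincidence x) ↔ OK x := by
  have key : ∀ i j (a : ℕ) (π : G i →* Matrix.unitaryGroup (Fin a) ℂ) (b : ℕ)
      (π' : G j →* Matrix.unitaryGroup (Fin b) ℂ),
      Tendsto (dirichletAvg fun v => |‖character π (x i v)‖ - ‖character π' (x j v)‖|)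
        (𝓝[>] 0) (𝓝 0) ↔
      DM (fun v => |‖chi π (x i v)‖ ^ 2 - ‖chi π' (x j v)‖ ^ 2|) 0 := by
    intro i j a π b π'
    rw [dir_iff, dm_sq_iff (C := max (a : ℝ) b)
      (fun v => ⟨norm_nonneg _, (norm_chi π _).trans (le_max_left _ _)⟩)
      (fun v => ⟨norm_nonneg _, (norm_chi π' _).trans (le_max_right _ _)⟩)]
    rfl
  constructor
  · rintro ⟨h1, h2, h3⟩
    exact ⟨fun i n π hc hs hn => (dir_iff _ _).1 (h1 i n π hc ⟨by omega, hs⟩ hn),
      fun i n π hc hs hn A h => h2 i n π hc ⟨by omega, hs⟩ hn A ((dir_iff _ _).2 h),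
      fun i j hij a π b π' hc hs ha hc' hs' hb h => h3 i j hij a π b π' hc ⟨by omega, hs⟩ ha hc'
        ⟨by omega, hs'⟩ hb ((key i j a π b π').2 h)⟩
  · rintro ⟨h1, h2, h3⟩
    exact ⟨fun i n π hc hs hn => (dir_iff _ _).2 (h1 i n π hc hs.2 hn),
      fun i n π hc hs hn A h => h2 i n π hc hs.2 hn A ((dir_iff _ _).1 h),
      fun i j hij a π b π' hc hs ha hc' hs' hb h => h3 i j hij a π b π' hc hs.2 ha hc'
        hs'.2 hb ((key i j a π b π').1 h)⟩

theorem bc_self {G : Type} [Group G] (x : HeightOneSpectrum (𝓞 K) → G) :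
    BaseChange (K := K) (F := K) x x := by
  refine ⟨∅, fun w _ v h1 _ => ⟨1, ?_⟩⟩
  have h3 : ∀ φ : 𝓞 K →+* 𝓞 K, (∀ z, ((φ z : 𝓞 K) : K) = (z : K)) →
      Ideal.comap φ w.asIdeal = w.asIdeal := by
    intro φ hφ
    ext z
    rw [Ideal.mem_comap, RingOfIntegers.ext (hφ z)]
  have h2 : w = v := by
    apply HeightOneSpectrum.ext
    rw [← h1, h3 _ fun z => rfl]
  rw [h2, one_mul, inv_one, mul_one]

end Bridge

open Pool.Agent.TH553.ST Pool.Agent.TH553.RS Pool.Agent.W540.BE Pool.Agent.Y798.JL in
/-- **A criterion for the joint Sato-Tate law.**  Let `K` be a number field, `G_i`, `i` in a finite set, compact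
connected Hausdorff groups with countable bases, `μ_i` the Haar probability measures, `x_{i,v} ∈ G_i` for the
primes `v` of `K`, and `σ_v` Frobenius elements in `Gal(K̄/K)`.  Suppose that

* for characters `θ_i` of degree one of the `G_i`, not all trivial, and irreducible Artin representations
  `ψ` the averages of `∏ θ_i(x_{i,v}) · χ_ψ(σ_v)` tend to `0` (an empty condition if the `G_i` have no
  non-trivial characters of degree one);
* for irreducible representations `π_i` of the `G_i`, not all of degree one, and irreducible Artin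
  representations `ψ` the function `L(⨂ π_i ⊗ ψ, s)` has meromorphic continuations to neighbourhoods of the
  points `1 + iτ`, with zeros and poles of any orders.

Then the following are equivalent:

1. for all irreducible representations `π` of the `G_i` of degree greater than one the Dirichlet average of
   `|χ_π(x_{i,v})|²` tends to `1`; for all such `π` and all finite sets `A` of real numbers the Dirichlet
   average of `∏_{a ∈ A} | |χ_π(x_{i,v})| - a |` does not tend to `0`; and for `i ≠ j` and all such `π` of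
   `G_i` and `π'` of `G_j` the Dirichlet average of `| |χ_π(x_{i,v})| - |χ_π'(x_{j,v})| |` does not tend
   to `0`;
2. the `x_v = (x_{i,v})_i` are equidistributed in the product of the `G_i` jointly with the Frobenius
   elements: for every open normal subgroup `U` of `Gal(K̄/K)` and class functions `e` on
   `Gal(K̄/K)/U` and `f` (continuous) on the product of the `G_i` the averages of `f(x_v) e(σ_v)` over the
   primes of norm at most `N` tend to the integral of `f` times the mean value of `e`;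
3. for every finite extension `F` of `K` and all base changes `y_i` of `x_i` to `F` the
   `y_w = (y_{i,w})_i` are equidistributed in the product of the `G_i`, in the sense of natural density. -/
theorem result (K : Type) [Field K] [NumberField K] (ι : Type) [Fintype ι] [DecidableEq ι]
    (G : ι → Type) [∀ i, Group (G i)] [∀ i, TopologicalSpace (G i)]
    [∀ i, IsTopologicalGroup (G i)] [∀ i, CompactSpace (G i)] [∀ i, ConnectedSpace (G i)]
    [∀ i, T2Space (G i)] [∀ i, SecondCountableTopology (G i)] [∀ i, MeasurableSpace (G i)]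
    [∀ i, BorelSpace (G i)] (μ : ∀ i, Measure (G i)) [∀ i, IsProbabilityMeasure (μ i)]
    [∀ i, (μ i).IsHaarMeasure] (x : ∀ i, HeightOneSpectrum (𝓞 K) → G i)
    (σ : HeightOneSpectrum (𝓞 K) → Gal(AlgebraicClosure K/K)) (hσ : ∀ v, IsFrobenius v (σ v))
    (hchar : CharactersAverageZero x σ) (hcont : HasContinuations x σ) :
    [RankinSelberg x ∧ NotFiniteValued x ∧ NoCoincidence x,
      ∀ (U : Subgroup Gal(AlgebraicClosure K/K)) [U.Normal],
        IsOpen (U : Set Gal(AlgebraicClosure K/K)) →
        ∀ (f : (∀ i, G i) → ℂ) (e : Gal(AlgebraicClosure K/K) ⧸ U → ℂ), Continuous f →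
        (∀ g h, f (h * g * h⁻¹) = f g) → (∀ g h, e (h * g * h⁻¹) = e g) →
        Tendsto (avg fun v => f (fun i => x i v) * e (QuotientGroup.mk (σ v))) atTop
          (𝓝 ((∫ g, f g ∂(Measure.pi μ)) *
            ((Nat.card (Gal(AlgebraicClosure K/K) ⧸ U) : ℂ)⁻¹ * ∑ᶠ q, e q))),
      ∀ (F : Type) [Field F] [NumberField F] [Algebra K F]
        (y : ∀ i, HeightOneSpectrum (𝓞 F) → G i), (∀ i, BaseChange (x i) (y i)) →
        Equidistributed (fun w => (fun i => y i w : ∀ i, G i)) (Measure.pi μ)].TFAE := by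
  have H : HG x σ :=
    { fr := hσ
      ch := fun π m ψ hc hnt hs hm hA => by
        rw [← avg_eq]
        exact hchar π m ψ hc hnt ⟨hm, hs⟩ hA
      cn := fun n π m ψ hπ hn hnt hs hm hA τ =>
        hcont n π m ψ (fun i => ⟨(hπ i).1, hn i, (hπ i).2⟩) hnt ⟨hm, hs⟩ hA τ }
  tfae_have 1 → 2 := by
    intro h U _ hU f e hf hcl hecl
    rw [avg_eq]
    exact H.joint (ok_iff.1 h) hU hf hcl hecl
  tfae_have 1 → 3 := by
    intro h F _ _ _ y hy f hf hcl
    rw [avg_eq]
    exact law_c (H.ext_law (ok_iff.1 h) hy) hf hcl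
  tfae_have 3 → 1 := by
    intro h
    refine ok_iff.2 (ok_of_law (μ := μ) ?_)
    intro f hf hcl
    have h1 := h K x (fun i => bc_self (x i)) (fun g => ((f g : ℝ) : ℂ))
      (Complex.continuous_ofReal.comp hf) (fun g k => by rw [hcl])
    rw [avg_eq] at h1
    have h2 := (Complex.continuous_re.tendsto _).comp h1
    have h3 : (∫ g, ((f g : ℝ) : ℂ) ∂(Measure.pi μ)).re = ∫ g, f g ∂(Measure.pi μ) := by
      have h5 : ∫ g, ((f g : ℝ) : ℂ) ∂(Measure.pi μ) =
          ((∫ g, f g ∂(Measure.pi μ) : ℝ) : ℂ) := integral_ofReal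
      rw [h5, Complex.ofReal_re]
    rw [h3] at h2
    refine h2.congr fun N => ?_
    simp only [Function.comp]
    rw [re_mn]
    congr 1
  tfae_have 2 → 1 := by
    intro h
    refine ok_iff.2 (ok_of_law (μ := μ) ?_)
    intro f hf hcl
    have h1 := h ⊤ isOpen_univ (fun g => ((f g : ℝ) : ℂ)) (fun _ => 1)
      (Complex.continuous_ofReal.comp hf) (fun g k => by rw [hcl]) (fun _ _ => rfl)
    rw [avg_eq] at h1
    have hsub : Subsingleton (Gal(AlgebraicClosure K/K) ⧸ (⊤ : Subgroup Gal(AlgebraicClosure K/K))) :=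
      QuotientGroup.subsingleton_quotient_top
    have hfin : Finite (Gal(AlgebraicClosure K/K) ⧸ (⊤ : Subgroup Gal(AlgebraicClosure K/K))) :=
      inferInstance
    letI := Fintype.ofFinite
      (Gal(AlgebraicClosure K/K) ⧸ (⊤ : Subgroup Gal(AlgebraicClosure K/K)))
    have h4 : ((Nat.card (Gal(AlgebraicClosure K/K) ⧸
        (⊤ : Subgroup Gal(AlgebraicClosure K/K))) : ℂ)⁻¹ * ∑ᶠ _ : (Gal(AlgebraicClosure K/K) ⧸
        (⊤ : Subgroup Gal(AlgebraicClosure K/K))), (1 : ℂ)) = 1 := by
      have h5 : (Nat.card (Gal(AlgebraicClosure K/K) ⧸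
          (⊤ : Subgroup Gal(AlgebraicClosure K/K))) : ℂ) ≠ 0 := by
        have : Nat.card (Gal(AlgebraicClosure K/K) ⧸
          (⊤ : Subgroup Gal(AlgebraicClosure K/K))) ≠ 0 := Nat.card_pos.ne'
        exact_mod_cast this
      rw [finsum_eq_sum_of_fintype, Finset.sum_const, Finset.card_univ, nsmul_eq_mul, mul_one,
        ← Nat.card_eq_fintype_card, inv_mul_cancel₀ h5]
    rw [h4, mul_one] at h1
    simp only [mul_one] at h1
    have h2 := (Complex.continuous_re.tendsto _).comp h1
    have h3 : (∫ g, ((f g : ℝ) : ℂ) ∂(Measure.pi μ)).re = ∫ g, f g ∂(Measure.pi μ) := by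
      have h5 : ∫ g, ((f g : ℝ) : ℂ) ∂(Measure.pi μ) =
          ((∫ g, f g ∂(Measure.pi μ) : ℝ) : ℂ) := integral_ofReal
      rw [h5, Complex.ofReal_re]
    rw [h3] at h2
    refine h2.congr fun N => ?_
    simp only [Function.comp]
    rw [re_mn]
    congr 1
  tfae_finish

end Pool.Agent.Results.MP_4c4ce6_nt.JointLawCriterion
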